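import Pool.Agent.GermDegree.Main

/-!
# The analytic order of an isolated critical point is `O(μ^{1/n})` in every dimension

Full (positive) answer to Q1 of `MP_bcd42e_ag`.

Idea of the proof.  Let `J` be the Jacobian ideal of `f` and `R = 𝓞/(𝔪J²)`, a local algebra of
dimension at most `(n+1)μ + n(n+1)/2`.  Among all `u ∈ 𝔪_Rⁿ` generating `R` take one for which the
spaces `W_e(u)` of values at `u` of polynomials of degree at most `e` are as large as possible.
First-order perturbation of `u` shows `v · (∂ᵢp)(u) ∈ W_e(u)` whenever `p(u) = 0`, `deg p ≤ e` and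
`v ∈ 𝔪_R`.  Starting from one nonzero polynomial relation `p` of degree `d`, which exists as soon as
`dim R < (n+d choose n)`, and differentiating it `d` times one finds that all monomials of degree
`2d` in `u` are in `W_{2d-1}(u)`, so that `W_{2d}(u) = R`.  Lifting `u` to a local biholomorphism
`φ` gives `f = p ∘ φ + g` with `deg p ≤ 2d` and `g ∈ 𝔪J²`; by Nakayama's lemma and Tougeron's
trick `f` is right equivalent to the polynomial `p`.
-/

set_option autoImplicit false

open Pool.Agent.GermDegree

namespace Pool.Agent.Results.MP_bcd42e_ag.AnalyticOrderBound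

/-- For every `n ≥ 1` there is a constant `a > 0` depending only on `n`, namely
`a = 2 ((n+2)!/2)^{1/n}`, such that every holomorphic germ `f : (ℂⁿ,0) → (ℂ,0)` with an isolated
critical point at the origin is right equivalent to a polynomial and its analytic order satisfies
`d(f) ≤ a μ(f)^{1/n}`. -/
theorem result (n : ℕ) (hn : 1 ≤ n) :
    ∃ a : ℝ, 0 < a ∧ a = 2 * (((n + 2).factorial : ℝ) / 2) ^ (1 / (n : ℝ)) ∧
      ∀ f : (Fin n → ℂ) → ℂ, IsolatedCriticalPoint f →
        (∃ p : MvPolynomial (Fin n) ℂ, RightEquivalent f (fun x => MvPolynomial.eval x p)) ∧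
        (analyticOrder f : ℝ) ≤ a * (milnorNumber f : ℝ) ^ (1 / (n : ℝ)) := by
  refine ⟨_, by positivity, rfl, fun f hf => ?_⟩
  obtain ⟨D, hD, p, hpdeg, hp⟩ := exists_polynomial hn hf
  refine ⟨⟨p, hp⟩, ?_⟩
  have h1 : analyticOrder f ≤ 2 * D :=
    (Nat.sInf_le ⟨p, rfl, hp⟩ : analyticOrder f ≤ p.totalDegree).trans hpdeg
  have hμ : 1 ≤ milnorNumber f := one_le_milnorNumber hf
  have h2 : (D : ℝ) ^ n ≤ ((n + 2).factorial : ℝ) / 2 * milnorNumber f := by
    have h3 : (D : ℝ) ^ n ≤ (n.factorial : ℝ) *
        ((n + 1) * milnorNumber f + ((n + 1).choose 2 : ℕ)) := by exact_mod_cast hD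
    refine h3.trans ?_
    have h4 : (((n + 1).choose 2 : ℕ) : ℝ) = (n + 1) * n / 2 := by
      rw [Nat.cast_choose_two]
      push_cast
      ring
    have h5 : ((n + 2).factorial : ℝ) = (n + 2) * ((n + 1) * n.factorial) := by
      rw [Nat.factorial_succ, Nat.factorial_succ]
      push_cast
      ring
    rw [h4, h5]
    have h6 : (1 : ℝ) ≤ milnorNumber f := by exact_mod_cast hμ
    have h7 : (0 : ℝ) < n.factorial := by exact_mod_cast n.factorial_pos
    have h8 : (0 : ℝ) ≤ (n.factorial : ℝ) * ((n + 1) * n / 2) := by positivity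
    nlinarith [mul_le_mul_of_nonneg_left h6 h8]
  have h9 : (D : ℝ) ≤ (((n + 2).factorial : ℝ) / 2 * milnorNumber f) ^ (1 / (n : ℝ)) := by
    have hn1 : (0 : ℝ) < n := by exact_mod_cast hn
    rw [one_div, Real.le_rpow_inv_iff_of_pos (by positivity) (by positivity) hn1,
      Real.rpow_natCast]
    exact h2
  have h10 : (analyticOrder f : ℝ) ≤ 2 * D := by exact_mod_cast h1
  calc (analyticOrder f : ℝ) ≤ 2 * D := h10
    _ ≤ 2 * (((n + 2).factorial : ℝ) / 2 * milnorNumber f) ^ (1 / (n : ℝ)) := by linarith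
    _ = _ := by
      rw [Real.mul_rpow (by positivity) (by positivity), mul_assoc]

end Pool.Agent.Results.MP_bcd42e_ag.AnalyticOrderBound
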